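import Pool.Agent.Lib.MP_cadcf7_co.Example

namespace Pool.Agent.Results.MP_cadcf7_co.CStarFive

open Pool.Agent.Lib.MP_cadcf7_co

/-- If the inequality `(∗_c)` holds for all finite connected plane graphs of minimum degree at
least `5`, then `c ≥ 5`. -/
theorem result (c : ℝ) (h : StarHolds c) : 5 ≤ c := by
  obtain ⟨G, hdec, R, hplane, hdeg, h1, h2, h3, h4⟩ := exists_example
  have h5 := h (Fin 114) G R hplane hdeg
  rw [h1, h2, h3, h4] at h5
  norm_num at h5
  linarith

end Pool.Agent.Results.MP_cadcf7_co.CStarFive
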